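import Pool.Agent.W78.GR.Basic
import Pool.Agent.W573.GA.Ele3

/-! Project GR (helper78), task GR-8 (helper352): arithmetic part. -/

set_option autoImplicit false

namespace Pool.Agent.W352.GR

open Finset
open Pool.Agent.W78.GR
open Pool.Agent.W573.GA (thue lat_star root_conj lat_of_mul)

variable {t c : ℤ}

lemma root_exists {p : ℕ} (hp : p.Prime)
    (h1 : p % (4 * (t ^ 2 - 4 * c).natAbs) = 1) : ∃ r : ℤ, (p : ℤ) ∣ r ^ 2 - t * r + c := by
  have : Fact p.Prime := ⟨hp⟩
  have hodd : Odd p := by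
    rw [Nat.odd_iff]
    have : p % 2 = (p % (4 * (t ^ 2 - 4 * c).natAbs)) % 2 := by
      rw [Nat.mod_mod_of_dvd]
      exact ⟨2 * (t ^ 2 - 4 * c).natAbs, by ring⟩
    rw [this, h1]
  have hJ : jacobiSym (t ^ 2 - 4 * c) p = 1 := by
    rw [jacobiSym.mod_right _ hodd, h1, jacobiSym.one_right]
  rw [← jacobiSym.legendreSym.to_jacobiSym] at hJ
  have hne : ((t ^ 2 - 4 * c : ℤ) : ZMod p) ≠ 0 := by
    intro h
    rw [← legendreSym.eq_zero_iff] at h
    rw [h] at hJ
    norm_num at hJ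
  obtain ⟨s, hs⟩ := (legendreSym.eq_one_iff p hne).1 hJ
  have h2 : (2 : ZMod p) ≠ 0 := by
    have : ((2 : ℕ) : ZMod p) ≠ 0 := by
      rw [Ne, ZMod.natCast_eq_zero_iff]
      intro h
      have := (Nat.prime_dvd_prime_iff_eq hp Nat.prime_two).1 h
      rw [this] at hodd
      exact (by decide : ¬ Odd 2) hodd
    simpa using this
  set u : ZMod p := ((t : ZMod p) + s) / 2 with hu
  refine ⟨(u.val : ℤ), ?_⟩
  rw [← ZMod.intCast_zmod_eq_zero_iff_dvd]
  push_cast
  rw [ZMod.natCast_zmod_val]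
  push_cast at hs
  have h3 : 2 * u = t + s := by rw [hu]; field_simp
  have h4 : (2 * u - t) ^ 2 = (t : ZMod p) ^ 2 - 4 * c := by
    rw [h3, hs]; ring
  have h5 : (4 : ZMod p) * (u ^ 2 - t * u + c) = 0 := by linear_combination h4
  have h6 : (4 : ZMod p) ≠ 0 := by
    have : (4 : ZMod p) = 2 * 2 := by norm_num
    rw [this]
    exact mul_ne_zero h2 h2
  exact (mul_eq_zero.1 h5).resolve_left h6

/-- the norm, with sign -/
def nn (z : Qd t c) : ℤ := z.re ^ 2 + t * z.re * z.im + c * z.im ^ 2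

lemma nm_nn (z : Qd t c) : nm z = (nn z).natAbs := rfl

lemma zp_exists (hns : ¬ IsSquare (t ^ 2 - 4 * c)) {p : ℕ} (hp : p.Prime) {r : ℤ}
    (hr : (p : ℤ) ∣ r ^ 2 - t * r + c) : ∃ (z : Qd t c) (a : ℕ) (s : Bool), lat p r z ∧
      nn z = (if s then 1 else -1) * (p * a) ∧ 1 ≤ a ∧ a ≤ 1 + t.natAbs + c.natAbs := by
  obtain ⟨x, y, h0, hx, hy, hd⟩ := thue hp.pos r
  set z : Qd t c := ⟨x, y⟩ with hz
  have hlat : lat p r z := hd
  have hdvd : (p : ℤ) ∣ nn z := by
    unfold nn
    have e : z.re ^ 2 + t * z.re * z.im + c * z.im ^ 2 =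
        (z.re + r * z.im) * (z.re + (t - r) * z.im) + z.im ^ 2 * (r ^ 2 - t * r + c) := by ring
    rw [e]
    exact dvd_add (Dvd.dvd.mul_right hlat _) (hr.mul_left _)
  obtain ⟨b, hb⟩ := hdvd
  have hz0 : z ≠ 0 := by
    intro h
    rcases h0 with h0 | h0
    · exact h0 (congrArg QuadraticAlgebra.re h)
    · exact h0 (congrArg QuadraticAlgebra.im h)
  have hb0 : b ≠ 0 := by
    intro h
    apply hz0
    rw [← nm_eq_zero hns, nm_nn, hb, h]
    simp
  have hp0 : (0 : ℤ) < p := by exact_mod_cast hp.pos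
  have hxy : |x * y| ≤ p := by
    have h2 : 2 * |x * y| ≤ x ^ 2 + y ^ 2 := by
      rw [abs_mul]
      nlinarith [sq_nonneg (|x| - |y|), sq_abs x, sq_abs y]
    linarith
  have h3 : |t * x * y| ≤ |t| * p := by
    rw [mul_assoc, abs_mul]
    exact mul_le_mul_of_nonneg_left hxy (abs_nonneg t)
  have h4 : |c * y ^ 2| ≤ |c| * p := by
    rw [abs_mul, abs_of_nonneg (sq_nonneg y)]
    exact mul_le_mul_of_nonneg_left hy (abs_nonneg c)
  have h5 : |nn z| ≤ p * (1 + |t| + |c|) := by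
    have e : nn z = x ^ 2 + t * x * y + c * y ^ 2 := rfl
    rw [e]
    have h6 := abs_add_le (x ^ 2 + t * x * y) (c * y ^ 2)
    have h7 := abs_add_le (x ^ 2) (t * x * y)
    rw [abs_of_nonneg (sq_nonneg x)] at h7
    nlinarith
  have h6 : |b| ≤ 1 + |t| + |c| := by
    rw [hb, abs_mul, abs_of_pos hp0] at h5
    exact le_of_mul_le_mul_left h5 hp0
  refine ⟨z, b.natAbs, decide (0 < b), hlat, ?_, Int.natAbs_pos.2 hb0, ?_⟩
  · rw [hb]
    by_cases h : 0 < b
    · rw [decide_eq_true h]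
      simp only [if_true]
      rw [Int.natCast_natAbs, abs_of_pos h]
      ring
    · rw [decide_eq_false h]
      simp only [Bool.false_eq_true, if_false]
      rw [Int.natCast_natAbs, abs_of_nonpos (not_lt.1 h)]
      ring
  · have h7 : ((b.natAbs : ℕ) : ℤ) ≤ ((1 + t.natAbs + c.natAbs : ℕ) : ℤ) := by
      push_cast
      exact h6
    exact_mod_cast h7

lemma nn_mul (z u : Qd t c) : nn (z * u) = nn z * nn u := by
  unfold nn
  simp only [QuadraticAlgebra.re_mul, QuadraticAlgebra.im_mul]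
  ring

lemma nn_star (z : Qd t c) : nn (star z) = nn z := by
  unfold nn
  simp only [QuadraticAlgebra.re_star, QuadraticAlgebra.im_star]
  ring

lemma nn_neg (z : Qd t c) : nn (-z) = nn z := by
  unfold nn
  simp only [QuadraticAlgebra.re_neg, QuadraticAlgebra.im_neg]
  ring

lemma mul_star_nn (z : Qd t c) : z * star z = ((nn z : ℤ) : Qd t c) := by
  apply QuadraticAlgebra.ext
  · rw [QuadraticAlgebra.re_intCast, Int.cast_id]
    unfold nn
    simp only [QuadraticAlgebra.re_mul, QuadraticAlgebra.re_star, QuadraticAlgebra.im_star]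
    ring
  · rw [QuadraticAlgebra.im_intCast]
    simp only [QuadraticAlgebra.im_mul, QuadraticAlgebra.re_star, QuadraticAlgebra.im_star]
    ring

lemma lat_neg {d : ℕ} {r : ℤ} {z : Qd t c} (h : lat d r z) : lat d r (-z) := by
  unfold lat at *
  simp only [QuadraticAlgebra.re_neg, QuadraticAlgebra.im_neg]
  have : -z.re + r * -z.im = -(z.re + r * z.im) := by ring
  rw [this]
  exact (dvd_neg).2 h

lemma tp_or (hd : 4 * c < t ^ 2) {z : Qd t c} (h : 0 < nn z) : tp z ∨ tp (-z) := by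
  have h1 : 0 < s1 z * s2 z := by
    rw [s1_mul_s2 hd]
    unfold nn at h
    exact_mod_cast h
  rcases pos_and_pos_or_neg_and_neg_of_mul_pos h1 with h2 | h2
  · exact Or.inl h2
  · right
    unfold tp
    rw [s1_neg, s2_neg]
    exact ⟨by linarith [h2.1], by linarith [h2.2]⟩

/-- the product element -/
lemma prod_elem (hd : 4 * c < t ^ 2) {p q a : ℕ} (hp : 1 ≤ p) (hq : 1 ≤ q) (ha : 1 ≤ a)
    (hpa : Nat.Coprime p a)
    (hqa : Nat.Coprime q a) {r s : ℤ} (hr : (p : ℤ) ∣ r ^ 2 - t * r + c)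
    (hs : (q : ℤ) ∣ s ^ 2 - t * s + c) {z u : Qd t c} (hz : lat p r z) (hu : lat q s u)
    {b : Bool} (hnz : nn z = (if b then 1 else -1) * (p * a))
    (hnu : nn u = (if b then 1 else -1) * (q * a)) (h1 : (a : ℤ) ∣ z.re - u.re)
    (h2 : (a : ℤ) ∣ z.im - u.im) :
    ∃ v : Qd t c, nm v = p * q ∧ lat p r v ∧ lat q (t - s) v ∧ tp v := by
  have hda : (a : Qd t c) ∣ z - u := natCast_dvd.2 ⟨by simpa using h1, by simpa using h2⟩
  obtain ⟨w, hw⟩ := hda
  set σ : ℤ := if b then 1 else -1 with hσ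
  have hσ2 : σ * σ = 1 := by
    rw [hσ]; split_ifs <;> norm_num
  have key : z * star u = (a : Qd t c) * (w * star u + ((σ * q : ℤ) : Qd t c)) := by
    have e1 : u * star u = ((σ * (q * a) : ℤ) : Qd t c) := by rw [mul_star_nn, hnu]
    have e2 : z = (a : Qd t c) * w + u := by rw [← hw]; ring
    rw [e2]
    have e3 : ((a : Qd t c) * w + u) * star u = (a : Qd t c) * (w * star u) + u * star u := by ring
    rw [e3, e1]
    push_cast
    ring
  set v : Qd t c := w * star u + ((σ * q : ℤ) : Qd t c) with hv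
  have hnv : nn v = p * q := by
    have e1 : nn (z * star u) = nn ((a : Qd t c) * v) := by rw [key]
    have e0 : nn (a : Qd t c) = (a : ℤ) ^ 2 := by
      unfold nn
      rw [QuadraticAlgebra.re_natCast, QuadraticAlgebra.im_natCast]
      ring
    rw [nn_mul, nn_mul, nn_star, e0, hnz, hnu] at e1
    have ha0 : (a : ℤ) ^ 2 ≠ 0 := by
      have : (0 : ℤ) < a := by exact_mod_cast ha
      positivity
    have e2 : (a : ℤ) ^ 2 * nn v = (a : ℤ) ^ 2 * (p * q) := by
      rw [← e1]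
      linear_combination (p * a * (q * a) : ℤ) * hσ2
    exact mul_left_cancel₀ ha0 e2
  have l1 : lat p r v := by
    apply lat_of_mul hpa
    rw [← key]
    exact lat_mul_left hr _ hz
  have l2 : lat q (t - s) v := by
    apply lat_of_mul hqa
    rw [← key, mul_comm]
    exact lat_mul_left (root_conj hs) _ (lat_star hu)
  have hpos : 0 < nn v := by
    rw [hnv]
    have h3 : (0 : ℤ) < p := by exact_mod_cast hp
    have h4 : (0 : ℤ) < q := by exact_mod_cast hq
    positivity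
  have hnm : nm v = p * q := by
    rw [nm_nn, hnv]
    exact_mod_cast Int.natAbs_natCast (p * q)
  rcases tp_or hd hpos with h | h
  · exact ⟨v, hnm, l1, l2, h⟩
  · exact ⟨-v, by rw [nm_neg, hnm], lat_neg l1, lat_neg l2, h⟩

end Pool.Agent.W352.GR
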